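import Pool.Agent.Q120.AD.Main

/-!
# Cramér's model: windows with many elements
-/

set_option autoImplicit false

namespace Pool.Agent.Q120.EX

open Finset MeasureTheory Filter Pool.Agent.Q120.ET Pool.Agent.Q120.MF Pool.Agent.Q120.AD
open scoped Topology

variable {Ω : Type*} [MeasurableSpace Ω] {μ : Measure Ω} [IsProbabilityMeasure μ] {A : Ω → Set ℕ}

/-- A lower bound for the probability of many elements. -/
theorem point_bound_ge {W : Finset ℕ} {y z : ℝ} (hy : 1 < Real.log y) (hy0 : 0 < y)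
    (hW : ∀ n ∈ W, y ≤ (n : ℝ) ∧ (n : ℝ) ≤ z) (m : ℕ) :
    (W.card.choose m : ℝ) * ((1 / Real.log z) ^ m * (1 - 1 / Real.log y) ^ W.card) ≤
      ∑ T ∈ W.powerset with m ≤ T.card, cramerOn W T := by
  have hlog : ∀ n ∈ W, Real.log y ≤ Real.log (n : ℝ) ∧ Real.log (n : ℝ) ≤ Real.log z := by
    intro n hn
    have h1 := hW n hn
    exact ⟨Real.log_le_log hy0 h1.1, Real.log_le_log (by linarith) h1.2⟩
  have h1y : 1 / Real.log y < 1 := by
    rw [div_lt_one (by linarith)]; exact hy
  have hterm : ∀ T ⊆ W, 0 ≤ cramerOn W T := by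
    intro T hT
    unfold cramerOn
    apply mul_nonneg
    · apply prod_nonneg
      intro n hn
      have := hlog n (hT hn)
      have : 0 < Real.log (n : ℝ) := by linarith
      positivity
    · apply prod_nonneg
      intro n hn
      have h2 := hlog n (Finset.mem_sdiff.1 hn).1
      have h3 : 1 / Real.log (n : ℝ) ≤ 1 / Real.log y := one_div_le_one_div_of_le (by linarith) h2.1
      linarith
  have h1 : ∀ T ∈ W.powersetCard m, (1 / Real.log z) ^ m * (1 - 1 / Real.log y) ^ W.card ≤ cramerOn W T := by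
    intro T hT
    rw [mem_powersetCard] at hT
    unfold cramerOn
    apply mul_le_mul
    · rw [← hT.2, ← prod_const]
      apply Finset.prod_le_prod
      · intro n hn
        have := hlog n (hT.1 hn)
        have : 0 < Real.log z := by linarith
        positivity
      · intro n hn
        have := hlog n (hT.1 hn)
        exact one_div_le_one_div_of_le (by linarith) this.2
    · calc (1 - 1 / Real.log y) ^ W.card ≤ (1 - 1 / Real.log y) ^ (W \ T).card := by
            apply pow_le_pow_of_le_one (by linarith)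
            · have : 0 < 1 / Real.log y := by
                have : 0 < Real.log y := by linarith
                positivity
              linarith
            · exact card_le_card sdiff_subset
        _ ≤ _ := by
            rw [← prod_const]
            apply Finset.prod_le_prod
            · intro n _
              linarith
            · intro n hn
              have h2 := hlog n (Finset.mem_sdiff.1 hn).1
              have h3 : 1 / Real.log (n : ℝ) ≤ 1 / Real.log y :=
                one_div_le_one_div_of_le (by linarith) h2.1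
              linarith
    · apply pow_nonneg
      linarith
    · apply prod_nonneg
      intro n hn
      have := hlog n (hT.1 hn)
      have : 0 < Real.log (n : ℝ) := by linarith
      positivity
  have h2 := card_nsmul_le_sum _ _ _ h1
  rw [card_powersetCard, nsmul_eq_mul] at h2
  refine h2.trans (sum_le_sum_of_subset_of_nonneg ?_ ?_)
  · intro T hT
    rw [mem_powersetCard] at hT
    rw [mem_filter, mem_powerset]
    exact ⟨hT.1, hT.2.ge⟩
  · intro T hT _
    rw [mem_filter, mem_powerset] at hT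
    exact hterm T hT.1

/-- The lower bound for the probability of few elements. -/
theorem q_lower' {c a : ℝ} (hc0 : 0 < c) (ha0 : 0 < a) (hr : a - c - c * Real.log (a / c) < 1) :
    ∃ δ : ℝ, 0 < δ ∧ ∀ᶠ x : ℕ in atTop, (x : ℝ) ^ (-(1 - δ)) ≤
      ((⌊a * Real.log x ^ 2⌋₊).choose ⌊c * Real.log x⌋₊ : ℝ) *
        ((1 / Real.log (2 * x)) ^ ⌊c * Real.log x⌋₊ * (1 - 1 / Real.log x) ^ ⌊a * Real.log x ^ 2⌋₊) := by
  have hc : 0 ≤ c := hc0.le
  obtain ⟨δ, hδ⟩ : ∃ δ : ℝ, δ = (1 - (a - c - c * Real.log (a / c))) / 2 := ⟨_, rfl⟩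
  have hδ0 : 0 < δ := by rw [hδ]; linarith
  refine ⟨δ, hδ0, ?_⟩
  have hth := tendsto_floor ha0.le hl2
  have htm := tendsto_floor hc hl
  have htl := tendsto_log_mul (show (0 : ℝ) < 2 by norm_num)
  -- the third piece
  have hP3 : Tendsto (fun x : ℕ => (⌊a * Real.log x ^ 2⌋₊ : ℝ) * Real.log (1 - 1 / Real.log x) / Real.log x)
      atTop (𝓝 (a * (-1))) := by
    have h1 := (Real.tendsto_mul_log_one_add_div_atTop (-1)).comp hl
    refine (hth.mul h1).congr' ?_
    filter_upwards [eventually_ge_atTop 3] with x hx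
    have h2 := one_lt_log hx
    simp only [Function.comp]
    rw [show 1 + -1 / Real.log (x : ℝ) = 1 - 1 / Real.log (x : ℝ) by ring]
    field_simp
  have hfloor : ∀ᶠ x : ℕ in atTop, ⌊c * Real.log x⌋₊ ≤ ⌊a * Real.log x ^ 2⌋₊ := by
    filter_upwards [hl.eventually_ge_atTop (c / a), eventually_ge_atTop 3] with x hx0 hx
    have h2 := one_lt_log hx
    apply Nat.floor_le_floor
    rw [div_le_iff₀ ha0] at hx0
    nlinarith
  · -- the pieces
    have hP1 : Tendsto (fun x : ℕ => Real.log ((⌊c * Real.log x⌋₊ : ℝ) + 1) / Real.log x) atTop (𝓝 0) := by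
      have h1 : Tendsto (fun x : ℕ => ((⌊c * Real.log x⌋₊ : ℝ) + 1)) atTop atTop :=
        tendsto_atTop_mono (fun x => (Nat.lt_floor_add_one _).le) (hl.const_mul_atTop hc0)
      have h2 := (Real.isLittleO_log_id_atTop.tendsto_div_nhds_zero).comp h1
      have h3 : Tendsto (fun x : ℕ => ((⌊c * Real.log x⌋₊ : ℝ) + 1) / Real.log x) atTop (𝓝 (c + 0)) := by
        have h4 := htm.add (hl.const_div_atTop (1 : ℝ))
        refine h4.congr (fun x => ?_)
        rw [add_div]
      have h4 := h2.mul h3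
      rw [zero_mul] at h4
      refine h4.congr' ?_
      filter_upwards [eventually_ge_atTop 3] with x hx
      have h5 := one_lt_log hx
      simp only [Function.comp, id]
      have h6 : (0 : ℝ) < (⌊c * Real.log x⌋₊ : ℝ) + 1 := by positivity
      field_simp
    have hR : Tendsto (fun x : ℕ => (((⌊a * Real.log x ^ 2⌋₊ : ℝ) - (⌊c * Real.log x⌋₊ : ℝ)) *
        (1 / Real.log (2 * x)) * Real.exp 1) / ((⌊c * Real.log x⌋₊ : ℝ) + 1)) atTop
        (𝓝 ((a - c * 0) * (1 / 1) * Real.exp 1 / (c + 0))) := by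
      have h1 : Tendsto (fun x : ℕ => (⌊a * Real.log x ^ 2⌋₊ : ℝ) / Real.log x ^ 2 -
          (⌊c * Real.log x⌋₊ : ℝ) / Real.log x * (1 / Real.log x)) atTop (𝓝 (a - c * 0)) :=
        hth.sub (htm.mul (hl.const_div_atTop (1 : ℝ)))
      have h2 : Tendsto (fun x : ℕ => 1 / (Real.log (2 * x) / Real.log x)) atTop (𝓝 (1 / 1)) :=
        tendsto_const_nhds.div htl one_ne_zero
      have h3 : Tendsto (fun x : ℕ => (⌊c * Real.log x⌋₊ : ℝ) / Real.log x + 1 / Real.log x) atTop (𝓝 (c + 0)) :=
        htm.add (hl.const_div_atTop (1 : ℝ))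
      refine (((h1.mul h2).mul_const (Real.exp 1)).div h3 (by rw [add_zero]; exact hc0.ne')).congr' ?_
      filter_upwards [eventually_ge_atTop 3] with x hx
      have h5 := one_lt_log hx
      have hx0 : (0 : ℝ) < x := by
        have : 0 < x := by omega
        exact_mod_cast this
      have h6 : 1 < Real.log (2 * (x : ℝ)) := by
        have := Real.log_le_log hx0 (show (x : ℝ) ≤ 2 * x by linarith)
        linarith
      have h7 : (0 : ℝ) < (⌊c * Real.log x⌋₊ : ℝ) + 1 := by positivity
      simp only [Pi.div_apply]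
      field_simp
    have hRlim : (a - c * 0) * (1 / 1) * Real.exp 1 / (c + 0) = a / c * Real.exp 1 := by
      rw [mul_zero, sub_zero, add_zero]; ring
    rw [hRlim] at hR
    have hR0 : 0 < a / c * Real.exp 1 := by positivity
    have hlogR := (hR.log hR0.ne')
    have hlogRlim : Real.log (a / c * Real.exp 1) = Real.log (a / c) + 1 := by
      rw [Real.log_mul (by positivity) (Real.exp_ne_zero _), Real.log_exp]
    rw [hlogRlim] at hlogR
    have hG := ((htm.mul hlogR).sub hP1).add hP3
    have h1 := hG.eventually_const_lt (show -(1 - δ) < c * (Real.log (a / c) + 1) - 0 + a * (-1) by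
      rw [hδ]; linarith)
    filter_upwards [h1, eventually_ge_atTop 3, hfloor, hR.eventually_const_lt hR0] with x hx hx3 hmh hRpos
    have h2 := one_lt_log hx3
    have hx0 : (0 : ℝ) < x := by
      have : 0 < x := by omega
      exact_mod_cast this
    have h2' : 1 < Real.log (2 * (x : ℝ)) := by
      have := Real.log_le_log hx0 (show (x : ℝ) ≤ 2 * x by linarith)
      linarith
    have h3 : 0 < 1 - 1 / Real.log (x : ℝ) := by
      have : 1 / Real.log (x : ℝ) < 1 := by rw [div_lt_one (by linarith)]; exact h2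
      linarith
    have hb := choose_bound (p := 1 / Real.log (2 * x)) (by positivity) hmh
    obtain ⟨R, hRdef⟩ : ∃ R : ℝ, R = (((⌊a * Real.log x ^ 2⌋₊ : ℝ) - (⌊c * Real.log x⌋₊ : ℝ)) *
        (1 / Real.log (2 * x)) * Real.exp 1) / ((⌊c * Real.log x⌋₊ : ℝ) + 1) := ⟨_, rfl⟩
    rw [← hRdef] at hb hRpos hx
    have hm1 : (0 : ℝ) < (⌊c * Real.log x⌋₊ : ℝ) + 1 := by positivity
    have h4 : Real.exp ((⌊c * Real.log x⌋₊ : ℝ) * Real.log R - Real.log ((⌊c * Real.log x⌋₊ : ℝ) + 1) +
        (⌊a * Real.log x ^ 2⌋₊ : ℝ) * Real.log (1 - 1 / Real.log x)) =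
        (1 / ((⌊c * Real.log x⌋₊ : ℝ) + 1) * R ^ ⌊c * Real.log x⌋₊) * (1 - 1 / Real.log x) ^ ⌊a * Real.log x ^ 2⌋₊ := by
      rw [Real.exp_add, Real.exp_sub, Real.exp_nat_mul, Real.exp_nat_mul, Real.exp_log hRpos, Real.exp_log hm1,
        Real.exp_log h3]
      ring
    have h5 : Real.log x * (-(1 - δ)) ≤ (⌊c * Real.log x⌋₊ : ℝ) * Real.log R -
        Real.log ((⌊c * Real.log x⌋₊ : ℝ) + 1) +
        (⌊a * Real.log x ^ 2⌋₊ : ℝ) * Real.log (1 - 1 / Real.log x) := by
      have h6 : (⌊c * Real.log x⌋₊ : ℝ) / Real.log x * Real.log R -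
          Real.log ((⌊c * Real.log x⌋₊ : ℝ) + 1) / Real.log x +
          (⌊a * Real.log x ^ 2⌋₊ : ℝ) * Real.log (1 - 1 / Real.log x) / Real.log x =
          ((⌊c * Real.log x⌋₊ : ℝ) * Real.log R -
        Real.log ((⌊c * Real.log x⌋₊ : ℝ) + 1) +
        (⌊a * Real.log x ^ 2⌋₊ : ℝ) * Real.log (1 - 1 / Real.log x)) / Real.log x := by ring
      rw [h6, lt_div_iff₀ (by linarith)] at hx
      linarith
    rw [Real.rpow_def_of_pos hx0]
    refine (Real.exp_le_exp.2 h5).trans ?_
    rw [h4, ← mul_assoc]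
    exact mul_le_mul_of_nonneg_right hb (by positivity)

/-- Windows with many elements occur if the rate is less than one. -/
theorem window_big (hA : IsCramer μ A) {c a : ℝ} (hc0 : 0 < c) (ha0 : 0 < a)
    (hr : a - c - c * Real.log (a / c) < 1) :
    ∀ᵐ ω ∂μ, ∀ᶠ x : ℕ in atTop, ∃ y, x ≤ y ∧ y + ⌊a * Real.log x ^ 2⌋₊ ≤ 2 * x ∧
      (tr A (Finset.Ioc y (y + ⌊a * Real.log x ^ 2⌋₊)) ω).card ≥ ⌊c * Real.log x⌋₊ := by
  obtain ⟨δ, hδ0, hq⟩ := q_lower' hc0 ha0 hr
  have hg : Summable (fun x : ℕ => (x : ℝ) ^ (-(2 : ℝ))) := Real.summable_nat_rpow.2 (by norm_num)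
  have hae := (ae_eventually_notMem (tsum_ne_top_of_real (μ := μ) hg
    (f := fun x => {ω | ∀ i ∈ range (x / ⌊a * Real.log x ^ 2⌋₊),
      ¬ (tr A (Finset.Ioc (x + i * ⌊a * Real.log x ^ 2⌋₊) (x + i * ⌊a * Real.log x ^ 2⌋₊ +
        ⌊a * Real.log x ^ 2⌋₊)) ω).card ≥ ⌊c * Real.log x⌋₊}) ?_))
  · filter_upwards [hae] with ω hω
    filter_upwards [hω] with x hx
    push Not at hx
    obtain ⟨i, hi, hcard⟩ := hx
    rw [mem_range] at hi
    refine ⟨x + i * ⌊a * Real.log x ^ 2⌋₊, by omega, ?_, hcard⟩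
    have h1 : (i + 1) * ⌊a * Real.log x ^ 2⌋₊ ≤ x / ⌊a * Real.log x ^ 2⌋₊ * ⌊a * Real.log x ^ 2⌋₊ :=
      Nat.mul_le_mul_right _ hi
    have h2 := Nat.div_mul_le_self x ⌊a * Real.log x ^ 2⌋₊
    have h3 : (i + 1) * ⌊a * Real.log x ^ 2⌋₊ = i * ⌊a * Real.log x ^ 2⌋₊ + ⌊a * Real.log x ^ 2⌋₊ := by ring
    omega
  · have htl2 := hl2.eventually_ge_atTop (1 / a)
    filter_upwards [hq, eventually_ge_atTop 3, ev_floor_le ha0.le 2, ev_pow (4 * a) δ hδ0, htl2] with
      x hxq hx3 hxf hxp hx1
    have hlog := one_lt_log hx3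
    have hx0 : (0 : ℝ) < x := by
      have : 0 < x := by omega
      exact_mod_cast this
    have hlog2 : 1 < Real.log (2 * (x : ℝ)) := by
      have := Real.log_le_log hx0 (show (x : ℝ) ≤ 2 * x by linarith)
      linarith
    obtain ⟨h, hh⟩ : ∃ h : ℕ, h = ⌊a * Real.log x ^ 2⌋₊ := ⟨_, rfl⟩
    obtain ⟨m, hm⟩ : ∃ m : ℕ, m = ⌊c * Real.log x⌋₊ := ⟨_, rfl⟩
    rw [← hh] at hxf
    rw [← hh, ← hm] at hxq
    rw [← hh, ← hm]
    have hh1 : 1 ≤ h := by
      rw [hh]
      apply Nat.le_floor
      rw [div_le_iff₀ ha0] at hx1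
      push_cast
      linarith
    have hhle : (h : ℝ) ≤ a * Real.log x ^ 2 := by rw [hh]; exact Nat.floor_le (by positivity)
    obtain ⟨q, hqd⟩ : ∃ q : ℝ, q = (x : ℝ) ^ (-(1 - δ)) := ⟨_, rfl⟩
    have hq0 : 0 < q := by rw [hqd]; positivity
    obtain ⟨N, hN⟩ : ∃ N : ℕ, N = x / h := ⟨_, rfl⟩
    rw [← hN]
    have hNh : N * h ≤ x := by rw [hN]; exact Nat.div_mul_le_self x h
    have hW3 : ∀ i ∈ range N, ∀ n ∈ Finset.Ioc (x + i * h) (x + i * h + h), 3 ≤ n := by
      intro i _ n hn
      rw [Finset.mem_Ioc] at hn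
      omega
    have hd : ∀ i ∈ range N, ∀ j ∈ range N, i ≠ j →
        Disjoint (Finset.Ioc (x + i * h) (x + i * h + h)) (Finset.Ioc (x + j * h) (x + j * h + h)) := by
      intro i _ j _ hij
      rw [Finset.disjoint_left]
      intro n hn1 hn2
      rw [Finset.mem_Ioc] at hn1 hn2
      rcases lt_or_gt_of_ne hij with h1 | h1
      · have h2 : (i + 1) * h ≤ j * h := Nat.mul_le_mul_right _ h1
        have h3 : (i + 1) * h = i * h + h := by ring
        omega
      · have h2 : (j + 1) * h ≤ i * h := Nat.mul_le_mul_right _ h1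
        have h3 : (j + 1) * h = j * h + h := by ring
        omega
    rw [real_all hA (range N) (fun i => Finset.Ioc (x + i * h) (x + i * h + h)) hW3 hd
      (fun _ T => ¬ m ≤ T.card)]
    have hone : ∀ i ∈ range N, ∑ T ∈ (Finset.Ioc (x + i * h) (x + i * h + h)).powerset with ¬ m ≤ T.card,
        cramerOn (Finset.Ioc (x + i * h) (x + i * h + h)) T ≤ Real.exp (-q) := by
      intro i hi
      have hi' := mem_range.1 hi
      have h1 := sum_filter_add_sum_filter_not (Finset.Ioc (x + i * h) (x + i * h + h)).powerset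
        (fun T => m ≤ T.card) (cramerOn (Finset.Ioc (x + i * h) (x + i * h + h)))
      rw [sum_cramerOn] at h1
      have h2 : (i + 1) * h ≤ N * h := Nat.mul_le_mul_right _ hi'
      have h3 : (i + 1) * h = i * h + h := by ring
      have h4 := point_bound_ge (W := Finset.Ioc (x + i * h) (x + i * h + h)) (y := x) (z := 2 * x) hlog hx0
        (by
          intro n hn
          rw [Finset.mem_Ioc] at hn
          constructor
          · have : x ≤ n := by omega
            exact_mod_cast this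
          · have : n ≤ 2 * x := by omega
            exact_mod_cast this) m
      rw [Nat.card_Ioc] at h4
      have h5 : (x + i * h + h - (x + i * h) : ℕ) = h := by omega
      rw [h5] at h4
      have h6 := Real.one_sub_le_exp_neg q
      rw [← hqd] at hxq
      linarith
    have h1 : ∏ i ∈ range N, ∑ T ∈ (Finset.Ioc (x + i * h) (x + i * h + h)).powerset with ¬ m ≤ T.card,
        cramerOn (Finset.Ioc (x + i * h) (x + i * h + h)) T ≤ ∏ i ∈ range N, Real.exp (-q) := by
      apply Finset.prod_le_prod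
      · intro i hi
        apply sum_nonneg
        intro T hT
        rw [mem_filter, mem_powerset] at hT
        exact cramerOn_nonneg (hW3 i hi) hT.1
      · exact hone
    refine h1.trans ?_
    rw [prod_const, card_range, ← Real.exp_nat_mul, Real.rpow_def_of_pos hx0]
    apply Real.exp_le_exp.2
    -- `2 log x ≤ N q`
    have h2 : (x : ℝ) / 2 ≤ N * h := by
      have h3 : x < (N + 1) * h := by
        rw [hN]
        have := Nat.lt_succ_iff.1 (Nat.lt_succ_of_lt (Nat.lt_div_mul_add (a := x) (b := h) (by omega)))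
        have h4 := Nat.lt_div_mul_add (a := x) (b := h) (by omega)
        calc x < x / h * h + h := h4
          _ = (x / h + 1) * h := by ring
      have h4 : (x : ℝ) < (N + 1) * h := by exact_mod_cast h3
      nlinarith
    have h3 : (x : ℝ) ^ δ / 2 ≤ N * q * h := by
      have h4 : (x : ℝ) ^ δ = x * q := by
        rw [hqd]
        nth_rewrite 2 [← Real.rpow_one (x : ℝ)]
        rw [← Real.rpow_add hx0]
        congr 1
        ring
      rw [h4]
      nlinarith
    have h4 : 2 * Real.log x * h ≤ N * q * h := by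
      calc 2 * Real.log x * h ≤ 2 * Real.log x * (a * Real.log x ^ 2) :=
            mul_le_mul_of_nonneg_left hhle (by linarith)
        _ = (4 * a * Real.log x ^ 3) / 2 := by ring
        _ ≤ (x : ℝ) ^ δ / 2 := by linarith
        _ ≤ _ := h3
    have hh0 : (0 : ℝ) < h := by exact_mod_cast hh1
    have h5 := le_of_mul_le_mul_right h4 hh0
    linarith

end Pool.Agent.Q120.EX
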