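import Pool.Agent.Q120.EX.Main

/-!
# Cramér's model: the asymptotic formula in windows which are longer than `log^2 x`
-/

set_option autoImplicit false

namespace Pool.Agent.Q120.EX

open Finset MeasureTheory Filter Pool.Agent.Q120.ET Pool.Agent.Q120.MF Pool.Agent.Q120.AD
open scoped Topology

variable {Ω : Type*} [MeasurableSpace Ω] {μ : Measure Ω} [IsProbabilityMeasure μ] {A : Ω → Set ℕ}

theorem two_pow_neg {x : ℕ} (hx : 3 ≤ x) : (x : ℝ) ^ (-(2 : ℝ)) = Real.exp (-(2 * Real.log x)) := by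
  have hx0 : (0 : ℝ) < x := by
    have : 0 < x := by omega
    exact_mod_cast this
  rw [Real.rpow_def_of_pos hx0]
  congr 1
  ring

theorem large_upper (hA : IsCramer μ A) {H : ℕ → ℝ} (h1 : Tendsto (fun x => H x / Real.log x ^ 2) atTop atTop)
    {ε : ℝ} (hε : 0 < ε) :
    ∀ᵐ ω ∂μ, ∀ᶠ x : ℕ in atTop, (num (A ω) H x : ℝ) ≤ (1 + ε) * (H x / Real.log x) := by
  obtain ⟨κ, hκ⟩ : ∃ κ : ℝ, κ = (1 + ε) * Real.log (1 + ε) - ε := ⟨_, rfl⟩
  have hκ0 : 0 < κ := by
    have h2 := Real.log_lt_sub_one_of_pos (show 0 < (1 + ε)⁻¹ by positivity) (by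
      intro h
      rw [inv_eq_one] at h
      linarith)
    rw [Real.log_inv] at h2
    have h3 : (1 + ε)⁻¹ * (1 + ε) = 1 := by field_simp
    rw [hκ]
    nlinarith
  have hg : Summable (fun y : ℕ => (1 + ε) * (y : ℝ) ^ (-(2 : ℝ))) :=
    (Real.summable_nat_rpow.2 (by norm_num)).mul_left _
  have h0 := (ae_eventually_notMem (tsum_ne_top_of_real (μ := μ) hg
    (f := fun x => {ω | ¬ (tr A (Finset.Ioc x (x + ⌊H x⌋₊)) ω).card ≤ ⌊(1 + ε) * (H x / Real.log x)⌋₊}) ?_))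
  · filter_upwards [h0] with ω hω
    filter_upwards [hω, h1.eventually_gt_atTop 0, eventually_ge_atTop 3] with x hx hx2 hx3
    have hlog := one_lt_log hx3
    have hH : 0 < H x := by
      by_contra hcon
      push Not at hcon
      have : H x / Real.log x ^ 2 ≤ 0 := div_nonpos_of_nonpos_of_nonneg hcon (by positivity)
      linarith
    rw [num_eq _ _ hH.le]
    have h2 : (⌊(1 + ε) * (H x / Real.log x)⌋₊ : ℝ) ≤ (1 + ε) * (H x / Real.log x) := Nat.floor_le (by positivity)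
    have h3 := not_not.1 hx
    have h4 : ((tr A (Finset.Ioc x (x + ⌊H x⌋₊)) ω).card : ℝ) ≤ ⌊(1 + ε) * (H x / Real.log x)⌋₊ := by exact_mod_cast h3
    linarith
  filter_upwards [h1.eventually_ge_atTop (2 / κ), eventually_ge_atTop 3] with x hx hx3
  have hlog := one_lt_log hx3
  obtain ⟨L, hL⟩ : ∃ L : ℝ, L = Real.log x := ⟨_, rfl⟩
  rw [← hL] at hlog hx
  have hHb : 2 * L ≤ κ * (H x / L) := by
    rw [div_le_div_iff₀ hκ0 (by positivity)] at hx
    rw [← mul_div_assoc, le_div_iff₀ (by linarith)]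
    nlinarith
  have hH : 0 < H x / L := by
    by_contra hcon
    push Not at hcon
    nlinarith
  have hH0 : 0 < H x := by
    by_contra hcon
    push Not at hcon
    have : H x / L ≤ 0 := div_nonpos_of_nonpos_of_nonneg hcon (by linarith)
    linarith
  refine (real_many hA hx3 (show 1 ≤ 1 + ε by linarith)).trans ?_
  rw [two_pow_neg hx3, ← hL]
  have h2 : ∑ n ∈ Finset.Ioc x (x + ⌊H x⌋₊), 1 / Real.log (n : ℝ) ≤ H x / L := by
    refine (sum_window_le hx3).trans ?_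
    rw [← hL]
    exact div_le_div_of_nonneg_right (Nat.floor_le hH0.le) (by linarith)
  have h3 : (1 / (1 + ε)) ^ ⌊(1 + ε) * (H x / L)⌋₊ ≤ (1 + ε) * Real.exp (-((1 + ε) * (H x / L) * Real.log (1 + ε))) := by
    have h4 : (1 + ε) * (H x / L) < ⌊(1 + ε) * (H x / L)⌋₊ + 1 := Nat.lt_floor_add_one _
    have h5 : 1 / (1 + ε) = Real.exp (-Real.log (1 + ε)) := by rw [Real.exp_neg, Real.exp_log (by linarith), one_div]
    have h6 : (1 + ε) * Real.exp (-((1 + ε) * (H x / L) * Real.log (1 + ε))) =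
        Real.exp (Real.log (1 + ε) - (1 + ε) * (H x / L) * Real.log (1 + ε)) := by
      rw [sub_eq_add_neg, Real.exp_add, Real.exp_log (by linarith)]
    rw [h5, h6, ← Real.exp_nat_mul, Real.exp_le_exp]
    have h7 : 0 < Real.log (1 + ε) := Real.log_pos (by linarith)
    nlinarith
  calc (1 / (1 + ε)) ^ ⌊(1 + ε) * (H x / L)⌋₊ *
        Real.exp (-((1 - (1 + ε)) * ∑ n ∈ Finset.Ioc x (x + ⌊H x⌋₊), 1 / Real.log (n : ℝ)))
      ≤ (1 + ε) * Real.exp (-((1 + ε) * (H x / L) * Real.log (1 + ε))) * Real.exp (ε * (H x / L)) := by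
        apply mul_le_mul h3 (Real.exp_le_exp.2 _) (Real.exp_pos _).le (by positivity)
        have := mul_le_mul_of_nonneg_left h2 hε.le
        linarith
    _ = (1 + ε) * Real.exp (-(κ * (H x / L))) := by
        rw [mul_assoc, ← Real.exp_add]
        congr 2
        rw [hκ]
        ring
    _ ≤ (1 + ε) * Real.exp (-(2 * L)) := by
        apply mul_le_mul_of_nonneg_left _ (by linarith)
        rw [Real.exp_le_exp]
        linarith

theorem large_lower (hA : IsCramer μ A) {H : ℕ → ℝ} (h1 : Tendsto (fun x => H x / Real.log x ^ 2) atTop atTop)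
    (hHx : ∀ᶠ x : ℕ in atTop, H x ≤ x) {ε : ℝ} (hε : 0 < ε) (hε1 : ε < 1) :
    ∀ᵐ ω ∂μ, ∀ᶠ x : ℕ in atTop, (1 - ε) * (H x / Real.log x) ≤ (num (A ω) H x : ℝ) := by
  obtain ⟨κ, hκ⟩ : ∃ κ : ℝ, κ = (1 - ε) * Real.log (1 - ε) + ε := ⟨_, rfl⟩
  have hκ0 : 0 < κ := by
    have h2 := Real.log_lt_sub_one_of_pos (show 0 < (1 - ε)⁻¹ by
      have : 0 < 1 - ε := by linarith
      positivity) (by
      intro h
      rw [inv_eq_one] at h
      linarith)
    rw [Real.log_inv] at h2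
    have h3 : (1 - ε)⁻¹ * (1 - ε) = 1 := by
      have : 1 - ε ≠ 0 := by linarith
      field_simp
    rw [hκ]
    nlinarith
  obtain ⟨δ, hδ⟩ : ∃ δ : ℝ, δ = min (1 / 2) (κ / (2 * ε)) := ⟨_, rfl⟩
  have hδ0 : 0 < δ := by rw [hδ]; positivity
  have hδ1 : δ ≤ 1 / 2 := by rw [hδ]; exact min_le_left _ _
  have hδκ : ε * δ ≤ κ / 2 := by
    have : δ ≤ κ / (2 * ε) := by rw [hδ]; exact min_le_right _ _
    rw [le_div_iff₀ (by positivity)] at this
    linarith
  have hg : Summable (fun y : ℕ => (y : ℝ) ^ (-(2 : ℝ))) := Real.summable_nat_rpow.2 (by norm_num)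
  have h0 := (ae_eventually_notMem (tsum_ne_top_of_real (μ := μ) hg
    (f := fun x => {ω | (tr A (Finset.Ioc x (x + ⌊H x⌋₊)) ω).card ≤ ⌊(1 - ε) * (H x / Real.log x)⌋₊}) ?_))
  · filter_upwards [h0] with ω hω
    filter_upwards [hω, h1.eventually_gt_atTop 0, eventually_ge_atTop 3] with x hx hx2 hx3
    have hlog := one_lt_log hx3
    have hH : 0 < H x := by
      by_contra hcon
      push Not at hcon
      have : H x / Real.log x ^ 2 ≤ 0 := div_nonpos_of_nonpos_of_nonneg hcon (by positivity)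
      linarith
    rw [num_eq _ _ hH.le]
    have h2 : (1 - ε) * (H x / Real.log x) < ⌊(1 - ε) * (H x / Real.log x)⌋₊ + 1 := Nat.lt_floor_add_one _
    have h3 : ((⌊(1 - ε) * (H x / Real.log x)⌋₊ : ℕ) : ℝ) + 1 ≤ (tr A (Finset.Ioc x (x + ⌊H x⌋₊)) ω).card := by
      exact_mod_cast (not_le.1 hx)
    linarith
  have hT := (tendsto_log_mul (show (0 : ℝ) < 2 by norm_num)).eventually_lt_const
    (show (1 : ℝ) < 1 + δ / 2 by linarith)
  filter_upwards [h1.eventually_ge_atTop (4 / κ), h1.eventually_ge_atTop (2 / δ), hHx, hT, eventually_ge_atTop 3] with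
    x hx hxδ hxx hT2 hx3
  have hlog := one_lt_log hx3
  have hx0 : (0 : ℝ) < x := by
    have : 0 < x := by omega
    exact_mod_cast this
  obtain ⟨L, hL⟩ : ∃ L : ℝ, L = Real.log x := ⟨_, rfl⟩
  rw [← hL] at hlog hx hxδ hT2
  have hHb : 4 * L ≤ κ * (H x / L) := by
    rw [div_le_div_iff₀ hκ0 (by positivity)] at hx
    rw [← mul_div_assoc, le_div_iff₀ (by linarith)]
    nlinarith
  have hH : 0 < H x / L := by
    by_contra hcon
    push Not at hcon
    nlinarith
  have hH0 : 0 < H x := by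
    by_contra hcon
    push Not at hcon
    have : H x / L ≤ 0 := div_nonpos_of_nonpos_of_nonneg hcon (by linarith)
    linarith
  have hHδ : 1 ≤ δ / 2 * H x := by
    rw [div_le_div_iff₀ hδ0 (by positivity)] at hxδ
    nlinarith
  refine (real_few hA hx3 (show 0 < 1 - ε by linarith) (by linarith)).trans ?_
  rw [two_pow_neg hx3, ← hL]
  have hl2x : 0 < Real.log (2 * (x : ℝ)) := by
    have := Real.log_le_log hx0 (show (x : ℝ) ≤ 2 * x by linarith)
    linarith
  have h2 : (1 - δ) * (H x / L) ≤ ∑ n ∈ Finset.Ioc x (x + ⌊H x⌋₊), 1 / Real.log (n : ℝ) := by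
    have hfl : (⌊H x⌋₊ : ℝ) ≤ H x := Nat.floor_le hH0.le
    have hfl2 : H x < ⌊H x⌋₊ + 1 := Nat.lt_floor_add_one _
    have h3 := sum_window (y := x) (h := ⌊H x⌋₊) (z := 2 * x) hx3 (by push_cast; linarith)
    refine le_trans ?_ h3
    rw [div_lt_iff₀ (by linarith)] at hT2
    rw [le_div_iff₀ hl2x]
    have h4 : (1 - δ) * (H x / L) * Real.log (2 * x) ≤ (1 - δ) * (H x / L) * ((1 + δ / 2) * L) :=
      mul_le_mul_of_nonneg_left hT2.le (mul_nonneg (by linarith) hH.le)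
    have h5 : (1 - δ) * (H x / L) * ((1 + δ / 2) * L) = (1 - δ) * (1 + δ / 2) * H x := by field_simp
    rw [h5] at h4
    have h6 : (1 - δ) * (1 + δ / 2) ≤ 1 - δ / 2 := by nlinarith
    have h7 : (1 - δ) * (1 + δ / 2) * H x ≤ (1 - δ / 2) * H x := mul_le_mul_of_nonneg_right h6 hH0.le
    linarith
  have h3 : (1 / (1 - ε)) ^ ⌊(1 - ε) * (H x / L)⌋₊ ≤ Real.exp (-((1 - ε) * (H x / L) * Real.log (1 - ε))) := by
    have h4 : (⌊(1 - ε) * (H x / L)⌋₊ : ℝ) ≤ (1 - ε) * (H x / L) := Nat.floor_le (mul_nonneg (by linarith) hH.le)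
    have h5 : 1 / (1 - ε) = Real.exp (-Real.log (1 - ε)) := by rw [Real.exp_neg, Real.exp_log (by linarith), one_div]
    rw [h5, ← Real.exp_nat_mul, Real.exp_le_exp]
    have h7 : Real.log (1 - ε) < 0 := Real.log_neg (by linarith) (by linarith)
    nlinarith
  calc (1 / (1 - ε)) ^ ⌊(1 - ε) * (H x / L)⌋₊ *
        Real.exp (-((1 - (1 - ε)) * ∑ n ∈ Finset.Ioc x (x + ⌊H x⌋₊), 1 / Real.log (n : ℝ)))
      ≤ Real.exp (-((1 - ε) * (H x / L) * Real.log (1 - ε))) * Real.exp (-(ε * ((1 - δ) * (H x / L)))) := by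
        apply mul_le_mul h3 (Real.exp_le_exp.2 _) (Real.exp_pos _).le (Real.exp_pos _).le
        have := mul_le_mul_of_nonneg_left h2 hε.le
        linarith
    _ = Real.exp (-(κ * (H x / L)) + ε * δ * (H x / L)) := by
        rw [← Real.exp_add]
        congr 1
        rw [hκ]
        ring
    _ ≤ Real.exp (-(2 * L)) := by
        rw [Real.exp_le_exp]
        have := mul_le_mul_of_nonneg_right hδκ hH.le
        linarith

theorem large_asym (hA : IsCramer μ A) {H : ℕ → ℝ} (h1 : Tendsto (fun x => H x / Real.log x ^ 2) atTop atTop)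
    (hHx : ∀ᶠ x : ℕ in atTop, H x ≤ x) :
    ∀ᵐ ω ∂μ, Tendsto (fun x : ℕ => (num (A ω) H x : ℝ) / (H x / Real.log x)) atTop (𝓝 1) := by
  have h2 : ∀ᵐ ω ∂μ, ∀ j : ℕ, (∀ᶠ x : ℕ in atTop, (num (A ω) H x : ℝ) ≤ (1 + 1 / ((j : ℝ) + 2)) * (H x / Real.log x)) ∧
      (∀ᶠ x : ℕ in atTop, (1 - 1 / ((j : ℝ) + 2)) * (H x / Real.log x) ≤ (num (A ω) H x : ℝ)) := by
    rw [ae_all_iff]
    intro j
    have h3 : 1 / ((j : ℝ) + 2) < 1 := by
      rw [div_lt_one (by positivity)]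
      linarith [Nat.cast_nonneg (α := ℝ) j]
    filter_upwards [large_upper hA h1 (show 0 < 1 / ((j : ℝ) + 2) by positivity),
      large_lower hA h1 hHx (show 0 < 1 / ((j : ℝ) + 2) by positivity) h3] with ω h4 h5
    exact ⟨h4, h5⟩
  filter_upwards [h2] with ω hω
  rw [Metric.tendsto_nhds]
  intro ε hε
  obtain ⟨j, hj⟩ := exists_nat_gt (1 / ε)
  have hj1 : 1 / ((j : ℝ) + 2) < ε := by
    rw [div_lt_iff₀ (by positivity)]
    rw [div_lt_iff₀ hε] at hj
    nlinarith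
  filter_upwards [(hω j).1, (hω j).2, h1.eventually_gt_atTop 0, eventually_ge_atTop 3] with x h3 h4 h5 h6
  have hlog := one_lt_log h6
  have hH : 0 < H x / Real.log x := by
    have h7 : H x / Real.log x = H x / Real.log x ^ 2 * Real.log x := by field_simp
    rw [h7]
    exact mul_pos h5 (by linarith)
  rw [Real.dist_eq, abs_lt]
  constructor
  · have : 1 - 1 / ((j : ℝ) + 2) ≤ (num (A ω) H x : ℝ) / (H x / Real.log x) := by rw [le_div_iff₀ hH]; exact h4
    linarith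
  · have : (num (A ω) H x : ℝ) / (H x / Real.log x) ≤ 1 + 1 / ((j : ℝ) + 2) := by rw [div_le_iff₀ hH]; exact h3
    linarith

end Pool.Agent.Q120.EX
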