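import Pool.Agent.Q120.EX.Basic

/-!
# Cramér's model: the extreme numbers of elements in short windows
-/

set_option autoImplicit false

namespace Pool.Agent.Q120.EX

open Finset MeasureTheory Filter Pool.Agent.Q120.ET Pool.Agent.Q120.MF Pool.Agent.Q120.AD
open scoped Topology

variable {Ω : Type*} [MeasurableSpace Ω] {μ : Measure Ω} [IsProbabilityMeasure μ] {A : Ω → Set ℕ}

/-- Windows with many elements do not occur if the rate exceeds one. -/
theorem window_none (hA : IsCramer μ A) {c a : ℝ} (ha0 : 0 < a) (hca : a < c)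
    (hr : 1 < a - c - c * Real.log (a / c)) :
    ∀ᵐ ω ∂μ, ∀ᶠ y : ℕ in atTop, (tr A (Finset.Ioc y (y + ⌊a * Real.log y ^ 2⌋₊)) ω).card ≤ ⌊c * Real.log y⌋₊ := by
  have hc0 : 0 < c := by linarith
  obtain ⟨s, hs⟩ : ∃ s : ℝ, s = c / a := ⟨_, rfl⟩
  have hs1 : 1 < s := by rw [hs, one_lt_div ha0]; exact hca
  have hs0 : 0 < s := by linarith
  have hsa : s * a = c := by rw [hs]; field_simp
  have hlogs : Real.log (a / c) = -Real.log s := by
    rw [hs, ← Real.log_inv, inv_div]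
  obtain ⟨κ, hκ⟩ : ∃ κ : ℝ, κ = a - c - c * Real.log (a / c) := ⟨_, rfl⟩
  rw [← hκ] at hr
  have hg : Summable (fun y : ℕ => s * (y : ℝ) ^ (-κ)) := (Real.summable_nat_rpow.2 (by linarith)).mul_left s
  have h0 := (ae_eventually_notMem (tsum_ne_top_of_real (μ := μ) hg
    (f := fun y => {ω | ¬ (tr A (Finset.Ioc y (y + ⌊a * Real.log y ^ 2⌋₊)) ω).card ≤ ⌊c * Real.log y⌋₊}) ?_))
  · filter_upwards [h0] with ω hω
    filter_upwards [hω] with y hy
    exact not_not.1 hy
  filter_upwards [eventually_ge_atTop 3] with y hy3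
  have hlog := one_lt_log hy3
  have hy0 : (0 : ℝ) < y := by
    have : 0 < y := by omega
    exact_mod_cast this
  refine (real_many hA hy3 hs1.le).trans ?_
  have h1 := sum_window_le (h := ⌊a * Real.log y ^ 2⌋₊) hy3
  have h2 : ∑ n ∈ Finset.Ioc y (y + ⌊a * Real.log y ^ 2⌋₊), 1 / Real.log (n : ℝ) ≤ a * Real.log y := by
    refine h1.trans ?_
    rw [div_le_iff₀ (by linarith)]
    have h3 : (⌊a * Real.log y ^ 2⌋₊ : ℝ) ≤ a * Real.log y ^ 2 := Nat.floor_le (by positivity)
    nlinarith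
  have h3 : (1 / s) ^ ⌊c * Real.log y⌋₊ ≤ s * Real.exp (-(c * Real.log s * Real.log y)) := by
    have h4 : c * Real.log y < ⌊c * Real.log y⌋₊ + 1 := Nat.lt_floor_add_one _
    have h5 : 1 / s = Real.exp (-Real.log s) := by rw [Real.exp_neg, Real.exp_log hs0, one_div]
    have h6 : s * Real.exp (-(c * Real.log s * Real.log y)) = Real.exp (Real.log s - c * Real.log s * Real.log y) := by
      rw [sub_eq_add_neg, Real.exp_add, Real.exp_log hs0]
    rw [h5, h6, ← Real.exp_nat_mul, Real.exp_le_exp]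
    have h7 : 0 < Real.log s := Real.log_pos hs1
    nlinarith
  calc (1 / s) ^ ⌊c * Real.log y⌋₊ *
        Real.exp (-((1 - s) * ∑ n ∈ Finset.Ioc y (y + ⌊a * Real.log y ^ 2⌋₊), 1 / Real.log (n : ℝ)))
      ≤ s * Real.exp (-(c * Real.log s * Real.log y)) * Real.exp ((s - 1) * (a * Real.log y)) := by
        apply mul_le_mul h3 (Real.exp_le_exp.2 _) (Real.exp_pos _).le (by positivity)
        have := mul_le_mul_of_nonneg_left h2 (show 0 ≤ s - 1 by linarith)
        linarith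
    _ = s * (y : ℝ) ^ (-κ) := by
        rw [mul_assoc, ← Real.exp_add, Real.rpow_def_of_pos hy0]
        congr 2
        have h7 : (s - 1) * (a * Real.log y) = (c - a) * Real.log y := by rw [← hsa]; ring
        rw [h7, hκ, hlogs]
        ring

/-- The number of elements in `(x, x + H x]`. -/
noncomputable def num (S : Set ℕ) (H : ℕ → ℝ) (x : ℕ) : ℕ := {n | n ∈ S ∧ x < n ∧ (n : ℝ) ≤ x + H x}.ncard

theorem num_eq (H : ℕ → ℝ) (x : ℕ) (hH : 0 ≤ H x) (ω : Ω) :
    num (A ω) H x = (tr A (Finset.Ioc x (x + ⌊H x⌋₊)) ω).card := by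
  unfold num
  have h1 : {n | n ∈ A ω ∧ x < n ∧ (n : ℝ) ≤ x + H x} = ((tr A (Finset.Ioc x (x + ⌊H x⌋₊)) ω : Finset ℕ) : Set ℕ) := by
    ext n
    rw [mem_coe, mem_tr, Finset.mem_Ioc]
    have h2 : x < n → ((n : ℝ) ≤ x + H x ↔ n ≤ x + ⌊H x⌋₊) := by
      intro hxn
      have h3 : n - x ≤ ⌊H x⌋₊ ↔ ((n - x : ℕ) : ℝ) ≤ H x := Nat.le_floor_iff hH
      rw [Nat.cast_sub hxn.le] at h3
      constructor
      · intro h4
        have := h3.2 (by linarith)
        omega
      · intro h4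
        have := h3.1 (by omega)
        linarith
    constructor
    · rintro ⟨h3, h4, h5⟩
      exact ⟨⟨h4, (h2 h4).1 h5⟩, h3⟩
    · rintro ⟨⟨h3, h4⟩, h5⟩
      exact ⟨h5, h3, (h2 h3).2 h4⟩
  rw [h1, Set.ncard_coe_finset]

theorem card_mono {x h h' : ℕ} (hh : h ≤ h') (ω : Ω) :
    (tr A (Finset.Ioc x (x + h)) ω).card ≤ (tr A (Finset.Ioc x (x + h')) ω).card := by
  apply card_le_card
  intro n hn
  rw [mem_tr, Finset.mem_Ioc] at hn ⊢
  exact ⟨⟨hn.1.1, by omega⟩, hn.2⟩

/-- The rate function. -/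
noncomputable def rate (a c : ℝ) : ℝ := a - c - c * Real.log (a / c)

theorem sq_nonneg' (a : ℝ) (ha : 0 < a) (x : ℕ) : 0 ≤ a * Real.log x ^ 2 := by positivity

theorem max_le (hA : IsCramer μ A) {c a : ℝ} (ha0 : 0 < a) (hca : a < c) (hr : 1 < rate a c) :
    ∀ᵐ ω ∂μ, ∀ᶠ x : ℕ in atTop, (num (A ω) (fun x => a * Real.log x ^ 2) x : ℝ) ≤ c * Real.log x := by
  filter_upwards [window_none hA ha0 hca hr] with ω hω
  filter_upwards [hω, hl.eventually_ge_atTop 0] with x hx hx0
  rw [num_eq _ _ (sq_nonneg' a ha0 x)]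
  have h1 : (⌊c * Real.log x⌋₊ : ℝ) ≤ c * Real.log x := Nat.floor_le (mul_nonneg (by linarith) hx0)
  have h2 : ((tr A (Finset.Ioc x (x + ⌊a * Real.log x ^ 2⌋₊)) ω).card : ℝ) ≤ ⌊c * Real.log x⌋₊ := by exact_mod_cast hx
  linarith

theorem le_min (hA : IsCramer μ A) {c a : ℝ} (hc : 0 < c) (hca : c < a) (hr : 1 < rate a c) :
    ∀ᵐ ω ∂μ, ∀ᶠ x : ℕ in atTop, c * Real.log x ≤ (num (A ω) (fun x => a * Real.log x ^ 2) x : ℝ) := by
  filter_upwards [window_many hA hc hca hr] with ω hω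
  filter_upwards [hω] with x hx
  rw [num_eq _ _ (sq_nonneg' a (by linarith) x)]
  have h1 : c * Real.log x < ⌊c * Real.log x⌋₊ + 1 := Nat.lt_floor_add_one _
  have h2 : ((⌊c * Real.log x⌋₊ : ℕ) : ℝ) + 1 ≤ (tr A (Finset.Ioc x (x + ⌊a * Real.log x ^ 2⌋₊)) ω).card := by
    exact_mod_cast (not_le.1 hx)
  linarith

theorem rate_cont_c {a c : ℝ} (ha : 0 < a) (hc : 0 < c) : ContinuousAt (fun c => rate a c) c := by
  unfold rate
  have h1 : ContinuousAt (fun c : ℝ => a / c) c := continuousAt_const.div continuousAt_id hc.ne'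
  have h2 : ContinuousAt (fun c : ℝ => Real.log (a / c)) c := h1.log (by positivity)
  exact (continuousAt_const.sub continuousAt_id).sub (continuousAt_id.mul h2)

theorem rate_cont_a {a c : ℝ} (ha : 0 < a) (hc : 0 ≤ c) : ContinuousAt (fun a => rate a c) a := by
  unfold rate
  rcases hc.eq_or_lt with h0 | h0
  · rw [← h0]
    simp only [zero_mul, sub_zero]
    exact continuousAt_id
  · have h1 : ContinuousAt (fun a : ℝ => a / c) a := continuousAt_id.div continuousAt_const h0.ne'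
    have h2 : ContinuousAt (fun a : ℝ => Real.log (a / c)) a := h1.log (by positivity)
    exact (continuousAt_id.sub continuousAt_const).sub (continuousAt_const.mul h2)

theorem exists_big (hA : IsCramer μ A) {c a : ℝ} (ha0 : 0 < a) (hca : a < c) (hr : rate a c < 1) :
    ∀ᵐ ω ∂μ, ∀ᶠ x : ℕ in atTop, ∃ y, x ≤ y ∧ y ≤ 2 * x ∧
      c * Real.log y ≤ (num (A ω) (fun x => a * Real.log x ^ 2) y : ℝ) := by
  have hc0 : 0 < c := by linarith
  have h1 := (rate_cont_c ha0 hc0).eventually_lt_const hr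
  obtain ⟨c', hc', hc'1⟩ : ∃ c', c < c' ∧ rate a c' < 1 := by
    rw [Metric.eventually_nhds_iff] at h1
    obtain ⟨e, he, h2⟩ := h1
    refine ⟨c + e / 2, by linarith, h2 ?_⟩
    rw [Real.dist_eq]
    have : c + e / 2 - c = e / 2 := by ring
    rw [this, abs_of_pos (by linarith)]
    linarith
  have hT := ((tendsto_log_mul (show (0 : ℝ) < 2 by norm_num)).const_mul c).eventually_lt_const
    (show c * 1 < (c + c') / 2 by linarith)
  filter_upwards [window_big hA (show 0 < c' by linarith) ha0 hc'1] with ω hω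
  filter_upwards [hω, hT, hl.eventually_ge_atTop (2 / (c' - c)), eventually_ge_atTop 3] with x hx hx2 hx3 hx4
  obtain ⟨y, hy1, hy2, hy3⟩ := hx
  refine ⟨y, hy1, by omega, ?_⟩
  rw [num_eq _ _ (sq_nonneg' a ha0 y)]
  have hlog := one_lt_log hx4
  have hx0 : (0 : ℝ) < x := by
    have : 0 < x := by omega
    exact_mod_cast this
  have hlxy : Real.log x ≤ Real.log y := Real.log_le_log hx0 (by exact_mod_cast hy1)
  have h4 : (tr A (Finset.Ioc y (y + ⌊a * Real.log x ^ 2⌋₊)) ω).card ≤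
      (tr A (Finset.Ioc y (y + ⌊a * Real.log y ^ 2⌋₊)) ω).card := by
    apply card_mono
    apply Nat.floor_le_floor
    apply mul_le_mul_of_nonneg_left _ ha0.le
    exact pow_le_pow_left₀ (by linarith) hlxy 2
  have h5 : (⌊c' * Real.log x⌋₊ : ℝ) ≤ (tr A (Finset.Ioc y (y + ⌊a * Real.log y ^ 2⌋₊)) ω).card := by
    exact_mod_cast (le_trans hy3 h4)
  have h6 : c' * Real.log x < ⌊c' * Real.log x⌋₊ + 1 := Nat.lt_floor_add_one _
  have h7 : Real.log y ≤ Real.log (2 * x) := by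
    apply Real.log_le_log
    · have : 0 < y := by omega
      exact_mod_cast this
    · have : y ≤ 2 * x := by omega
      exact_mod_cast this
  have h8 : c * Real.log (2 * x) ≤ (c + c') / 2 * Real.log x := by
    rw [← mul_div_assoc, div_lt_iff₀ (by linarith)] at hx2
    exact hx2.le
  have h9 : 2 ≤ (c' - c) * Real.log x := by
    rw [div_le_iff₀ (by linarith)] at hx3
    linarith
  have h10 : c * Real.log y ≤ c * Real.log (2 * x) := mul_le_mul_of_nonneg_left h7 hc0.le
  linarith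

theorem exists_small (hA : IsCramer μ A) {c a : ℝ} (hc : 0 ≤ c) (hca : c < a) (hr : rate a c < 1) :
    ∀ᵐ ω ∂μ, ∀ᶠ x : ℕ in atTop, ∃ y, x ≤ y ∧ y ≤ 2 * x ∧
      (num (A ω) (fun x => a * Real.log x ^ 2) y : ℝ) ≤ c * Real.log y := by
  have ha0 : 0 < a := by linarith
  have h1 := (rate_cont_a ha0 hc).eventually_lt_const hr
  obtain ⟨a', ha', ha'1⟩ : ∃ a', a < a' ∧ rate a' c < 1 := by
    rw [Metric.eventually_nhds_iff] at h1
    obtain ⟨e, he, h2⟩ := h1
    refine ⟨a + e / 2, by linarith, h2 ?_⟩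
    rw [Real.dist_eq]
    have : a + e / 2 - a = e / 2 := by ring
    rw [this, abs_of_pos (by linarith)]
    linarith
  have hT := (((tendsto_log_mul (show (0 : ℝ) < 2 by norm_num)).pow 2).const_mul a).eventually_lt_const
    (show a * 1 ^ 2 < a' by rw [one_pow, mul_one]; exact ha')
  filter_upwards [window_few hA hc (show c < a' by linarith) ha'1] with ω hω
  filter_upwards [hω, hT, eventually_ge_atTop 3] with x hx hx2 hx4
  obtain ⟨y, hy1, hy2, hy3⟩ := hx
  refine ⟨y, hy1, by omega, ?_⟩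
  rw [num_eq _ _ (sq_nonneg' a ha0 y)]
  have hlog := one_lt_log hx4
  have hx0 : (0 : ℝ) < x := by
    have : 0 < x := by omega
    exact_mod_cast this
  have hlxy : Real.log x ≤ Real.log y := Real.log_le_log hx0 (by exact_mod_cast hy1)
  have h7 : Real.log y ≤ Real.log (2 * x) := by
    apply Real.log_le_log
    · have : 0 < y := by omega
      exact_mod_cast this
    · have : y ≤ 2 * x := by omega
      exact_mod_cast this
  have h8 : a * Real.log (2 * x) ^ 2 ≤ a' * Real.log x ^ 2 := by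
    rw [div_pow, ← mul_div_assoc, div_lt_iff₀ (by positivity)] at hx2
    exact hx2.le
  have h4 : (tr A (Finset.Ioc y (y + ⌊a * Real.log y ^ 2⌋₊)) ω).card ≤
      (tr A (Finset.Ioc y (y + ⌊a' * Real.log x ^ 2⌋₊)) ω).card := by
    apply card_mono
    apply Nat.floor_le_floor
    refine le_trans ?_ h8
    apply mul_le_mul_of_nonneg_left _ ha0.le
    exact pow_le_pow_left₀ (by linarith) h7 2
  have h5 : ((tr A (Finset.Ioc y (y + ⌊a * Real.log y ^ 2⌋₊)) ω).card : ℝ) ≤ ⌊c * Real.log x⌋₊ := by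
    exact_mod_cast (h4.trans hy3)
  have h6 : (⌊c * Real.log x⌋₊ : ℝ) ≤ c * Real.log x := Nat.floor_le (mul_nonneg hc (by linarith))
  have h9 : c * Real.log x ≤ c * Real.log y := mul_le_mul_of_nonneg_left hlxy hc
  linarith

end Pool.Agent.Q120.EX
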